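import Pool.Agent.Helper89.SP.Defs
import Pool.Agent.Helper89.FA.Main

/-!
Project SP (MP_66ebcc_gt), SP-05b: the bound of `P` by `Phat`.
-/

set_option autoImplicit false

open MeasureTheory Set Real Slab
open Pool.Agent.Helper88.Slab (prob ind cube T0 prob_ge_t ind_integrable_cube)

namespace Pool.Agent.Helper89.SP

/-- the bridge (SP-01) -/
def PHatBridge : Prop := ∀ {n : ℕ} (a : Fin n → ℝ) {t : ℝ}, 0 ≤ t → T (List.ofFn a) t = 1 - prob a t

theorem prob_mono_right {n : ℕ} (a : Fin n → ℝ) {t t' : ℝ} (h : t ≤ t') : prob a t ≤ prob a t' := by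
  unfold prob
  apply integral_mono (ind_integrable_cube t a) (ind_integrable_cube t' a)
  intro x
  simp only [ind]
  split_ifs with h1 h2
  · exact le_rfl
  · exact absurd (h1.trans h) h2
  · norm_num
  · exact le_rfl

theorem prob_scale {n : ℕ} (a : Fin n → ℝ) {t c : ℝ} (hc : 0 < c) :
    prob (fun j => a j / c) (t / c) = prob a t := by
  unfold prob
  congr 1
  funext x
  have h1 : ∑ j, a j / c * x j = (∑ j, a j * x j) / c := by
    rw [Finset.sum_div]
    exact Finset.sum_congr rfl fun j _ => by ring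
  rw [h1]
  simp only [ind]
  have h2 : |(∑ j, a j * x j) / c| ≤ t / c ↔ |∑ j, a j * x j| ≤ t := by
    rw [abs_div, abs_of_pos hc, div_le_div_iff_of_pos_right hc]
  simp only [h2]

theorem prob_hat {n : ℕ} (hn : 3 ≤ n) (b : Fin n → ℝ) (hb : ∑ j, b j ^ 2 = 1) {u : ℝ} (hu : 0 ≤ u) :
    1 - prob b u ≤ Phat u := by
  obtain ⟨t₁, h1, h2, h0⟩ := Pool.Agent.Helper89.FA.exists_t1
  obtain ⟨s1, s2⟩ := Pool.Agent.Helper89.FA.sqrt2_b
  unfold Phat
  split_ifs with c1 c2
  · rcases hu.eq_or_lt with h | h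
    · rw [← h]
      have := Pool.Agent.Helper89.FA.prob_nonneg b 0
      linarith
    · have := prob_ge_t b hb h c1
      linarith
  · rw [not_le] at c1
    exact Pool.Agent.Helper89.FA.two_min hn b hb h1 h2 h0 c1.le (c2.trans h1.le)
  · rw [not_le] at c2
    have h3 := Pool.Agent.Helper89.FA.two_min hn b hb h1 h2 h0 (t := 1.0129) (by linarith) h1.le
    have h4 := prob_mono_right b c2.le
    have h5 : (√2 - 1.0129) ^ 2 / 2 ≤ 0.0806 := by nlinarith
    linarith

theorem P_le_hat_of (hT : PHatBridge) (l : List ℝ) (hlen : 3 ≤ l.length) (hl : 0 < sq l) {s : ℝ}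
    (hs : 0 ≤ s) : P l s ≤ Phat (s / √(sq l)) / 2 := by
  have hσ : 0 < √(sq l) := Real.sqrt_pos.2 hl
  have h1 : P l s = T l s / 2 := by
    unfold P T
    ring
  have h2 := hT l.get hs
  rw [List.ofFn_get] at h2
  have hsum : ∑ j, (l.get j / √(sq l)) ^ 2 = 1 := by
    simp only [div_pow]
    rw [← Finset.sum_div, Real.sq_sqrt hl.le]
    have : ∑ j, l.get j ^ 2 = sq l := by
      unfold sq
      conv_rhs => rw [← List.ofFn_get l]
      rw [List.map_ofFn, List.sum_ofFn]
      rfl
    rw [this, div_self hl.ne']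
  have h3 := prob_hat hlen (fun j => l.get j / √(sq l)) hsum (div_nonneg hs hσ.le)
  rw [prob_scale l.get hσ] at h3
  rw [h1, h2]
  linarith

end Pool.Agent.Helper89.SP
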