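import Pool.Agent.Helper40.SP.PHat
import Pool.Agent.Helper37.SP.Bridge

/-!
Project SP (MP_66ebcc_gt), SP-05b: the bound of `P` by `Phat` (final form).
-/

set_option autoImplicit false

open MeasureTheory Set Real Slab

namespace Pool.Agent.Helper89.SP

theorem P_le_hat (l : List ℝ) (hlen : 3 ≤ l.length) (hl : 0 < sq l) {s : ℝ} (hs : 0 ≤ s) :
    P l s ≤ Phat (s / √(sq l)) / 2 :=
  P_le_hat_of (fun a _ ht => T_ofFn a ht) l hlen hl hs

end Pool.Agent.Helper89.SP
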